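import Mathlib

/-!
# The box-theorem analogue for product sets holds exactly for at most three factors

For every constant `C ≥ 1` the box-theorem analogue with constant `C` holds in all groups for `n`
factors if and only if `n ≤ 3`.
-/

namespace Pool.Agent.Results.MP_c59173_co.BoxFails

open Finset

universe u

/-- The product set `S 0 ⋆ S 1 ⋆ ⋯ ⋆ S (n-1)`, taken in this order: all products
`s 0 * s 1 * ⋯ * s (n-1)` with `s i ∈ S i`. -/
def prodSet {G : Type*} [Group G] [DecidableEq G] {n : ℕ} (S : Fin n → Finset G) : Finset G :=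
  (Fintype.piFinset S).image fun s => (List.ofFn s).prod

/-- `N_A`: the largest size of a product set obtained from `S 0 ⋆ ⋯ ⋆ S (n-1)` by keeping `S i`
for `i ∈ A` and replacing each `S i` with `i ∉ A` by a singleton `{x i}`, `x i ∈ S i`. -/
def maxSize {G : Type*} [Group G] [DecidableEq G] {n : ℕ} (S : Fin n → Finset G)
    (A : Finset (Fin n)) : ℕ :=
  (Fintype.piFinset S).sup fun x => (prodSet fun i => if i ∈ A then S i else {x i}).card

/-! ## Basic facts -/

section basic

variable {G : Type u} [Group G] [DecidableEq G]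

theorem mem_prodSet {n : ℕ} {S : Fin n → Finset G} {g : G} :
    g ∈ prodSet S ↔ ∃ s : Fin n → G, (∀ i, s i ∈ S i) ∧ (List.ofFn s).prod = g := by
  simp [prodSet, Fintype.mem_piFinset]

theorem maxSize_le {n : ℕ} {S : Fin n → Finset G} {A : Finset (Fin n)} {b : ℕ}
    (h : ∀ x : Fin n → G, (∀ i, x i ∈ S i) →
      (prodSet fun i => if i ∈ A then S i else {x i}).card ≤ b) :
    maxSize S A ≤ b := by
  unfold maxSize
  apply Finset.sup_le
  intro x hx
  exact h x (Fintype.mem_piFinset.1 hx)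

theorem le_maxSize {n : ℕ} {S : Fin n → Finset G} (A : Finset (Fin n)) {x : Fin n → G}
    (hx : ∀ i, x i ∈ S i) :
    (prodSet fun i => if i ∈ A then S i else {x i}).card ≤ maxSize S A := by
  have h := Finset.le_sup (s := Fintype.piFinset S) (b := x)
    (f := fun x => (prodSet fun i => if i ∈ A then S i else {x i}).card)
    (Fintype.mem_piFinset.2 hx)
  exact h

/-- pointwise product of two finite sets -/
def pr (A B : Finset G) : Finset G := (A ×ˢ B).image fun p => p.1 * p.2

theorem mem_pr {A B : Finset G} {g : G} : g ∈ pr A B ↔ ∃ a ∈ A, ∃ b ∈ B, a * b = g := by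
  simp only [pr, mem_image, mem_product, Prod.exists]
  constructor
  · rintro ⟨a, b, ⟨ha, hb⟩, h⟩
    exact ⟨a, ha, b, hb, h⟩
  · rintro ⟨a, ha, b, hb, h⟩
    exact ⟨a, b, ⟨ha, hb⟩, h⟩

theorem prodSet_four (S : Fin 4 → Finset G) :
    prodSet S = pr (pr (pr (S 0) (S 1)) (S 2)) (S 3) := by
  ext g
  rw [mem_prodSet]
  simp only [mem_pr]
  constructor
  · rintro ⟨s, hs, rfl⟩
    refine ⟨s 0 * s 1 * s 2, ⟨s 0 * s 1, ⟨s 0, hs 0, s 1, hs 1, rfl⟩, s 2, hs 2, rfl⟩, s 3, hs 3, ?_⟩
    simp [List.ofFn_succ, mul_assoc]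
  · rintro ⟨_, ⟨_, ⟨a, ha, b, hb, rfl⟩, c, hc, rfl⟩, d, hd, rfl⟩
    refine ⟨![a, b, c, d], ?_, ?_⟩
    · intro i
      fin_cases i <;> assumption
    · simp [List.ofFn_succ, mul_assoc]

/-- Product sets in a power are boxes of product sets. -/
theorem prodSet_pi {k n : ℕ} (T : Fin k → Fin n → Finset G) :
    prodSet (fun i => Fintype.piFinset fun j => T j i) =
      Fintype.piFinset fun j => prodSet (T j) := by
  ext g
  rw [mem_prodSet, Fintype.mem_piFinset]
  constructor
  · rintro ⟨s, hs, rfl⟩ j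
    rw [mem_prodSet]
    refine ⟨fun i => s i j, fun i => ?_, ?_⟩
    · exact (Fintype.mem_piFinset.1 (hs i)) j
    · rw [Pi.list_prod_apply, List.map_ofFn]
      rfl
  · intro h
    have h' : ∀ j, ∃ s : Fin n → G, (∀ i, s i ∈ T j i) ∧ (List.ofFn s).prod = g j :=
      fun j => mem_prodSet.1 (h j)
    choose s hs hsp using h'
    refine ⟨fun i j => s j i, fun i => ?_, ?_⟩
    · rw [Fintype.mem_piFinset]
      exact fun j => hs j i
    · funext j
      rw [Pi.list_prod_apply, List.map_ofFn, ← hsp j]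
      rfl

theorem prodSet_append_one {n m : ℕ} (T : Fin n → Finset G) :
    prodSet (Fin.append T (fun _ : Fin m => {1})) = prodSet T := by
  ext g
  rw [mem_prodSet, mem_prodSet]
  constructor
  · rintro ⟨s, hs, rfl⟩
    refine ⟨fun i => s (Fin.castAdd m i), fun i => ?_, ?_⟩
    · have := hs (Fin.castAdd m i)
      rwa [Fin.append_left] at this
    · rw [List.ofFn_add, List.prod_append]
      have h1 : (fun j => s (Fin.natAdd n j)) = fun _ : Fin m => (1 : G) := by
        funext j
        have := hs (Fin.natAdd n j)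
        rw [Fin.append_right] at this
        exact Finset.mem_singleton.1 this
      rw [h1, List.ofFn_const, List.prod_replicate, one_pow, mul_one]
      rfl
  · rintro ⟨s, hs, rfl⟩
    refine ⟨Fin.append s (fun _ => 1), fun i => ?_, ?_⟩
    · refine Fin.addCases (fun i => ?_) (fun j => ?_) i
      · rw [Fin.append_left, Fin.append_left]; exact hs i
      · rw [Fin.append_right, Fin.append_right]; exact Finset.mem_singleton_self _
    · rw [List.ofFn_fin_append, List.prod_append, List.ofFn_const, List.prod_replicate, one_pow,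
        mul_one]

theorem prodSet_singletons {n : ℕ} (y : Fin n → G) :
    (prodSet fun i => ({y i} : Finset G)).card = 1 := by
  rw [Finset.card_eq_one]
  refine ⟨(List.ofFn y).prod, ?_⟩
  ext g
  rw [mem_prodSet, Finset.mem_singleton]
  constructor
  · rintro ⟨s, hs, rfl⟩
    have : s = y := by
      funext i
      exact Finset.mem_singleton.1 (hs i)
    rw [this]
  · rintro rfl
    exact ⟨y, fun i => Finset.mem_singleton_self _, rfl⟩

/-- the `k`-th power of a family -/
def powFam {n : ℕ} (k : ℕ) (T : Fin n → Finset G) : Fin n → Finset (Fin k → G) :=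
  fun i => Fintype.piFinset fun _ => T i

theorem card_prodSet_powFam {n : ℕ} (k : ℕ) (T : Fin n → Finset G) :
    (prodSet (powFam k T)).card = (prodSet T).card ^ k := by
  unfold powFam
  rw [prodSet_pi (fun _ : Fin k => T), Fintype.card_piFinset]
  simp

theorem maxSize_powFam_le {n : ℕ} (k : ℕ) (T : Fin n → Finset G) (A : Finset (Fin n)) :
    maxSize (powFam k T) A ≤ (maxSize T A) ^ k := by
  apply maxSize_le
  intro x hx
  have hx' : ∀ i j, x i j ∈ T i := fun i j => (Fintype.mem_piFinset.1 (hx i)) j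
  have h1 : (fun i => if i ∈ A then powFam k T i else {x i}) =
      fun i => Fintype.piFinset fun j : Fin k => if i ∈ A then T i else {x i j} := by
    funext i
    by_cases hi : i ∈ A
    · simp only [hi, if_true]; rfl
    · simp only [hi, if_false]
      exact (Fintype.piFinset_singleton _).symm
  rw [h1, prodSet_pi (fun (j : Fin k) i => if i ∈ A then T i else {x i j}),
    Fintype.card_piFinset]
  calc ∏ j : Fin k, (prodSet fun i => if i ∈ A then T i else {x i j}).card
      ≤ ∏ _j : Fin k, maxSize T A :=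
        Finset.prod_le_prod' fun j _ => le_maxSize A (fun i => hx' i j)
    _ = (maxSize T A) ^ k := by simp

theorem maxSize_append_le {n m : ℕ} (T : Fin n → Finset G) (A : Finset (Fin n)) :
    maxSize (Fin.append T (fun _ : Fin m => {1})) (A.map (Fin.castAddEmb m)) ≤ maxSize T A := by
  apply maxSize_le
  intro x hx
  have h1 : (fun i => if i ∈ A.map (Fin.castAddEmb m) then
        Fin.append T (fun _ : Fin m => {1}) i else {x i}) =
      Fin.append (fun i : Fin n => if i ∈ A then T i else {x (Fin.castAdd m i)})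
        (fun _ : Fin m => {1}) := by
    funext i
    refine Fin.addCases (fun i => ?_) (fun j => ?_) i
    · rw [Fin.append_left, Fin.append_left]
      by_cases hi : i ∈ A
      · rw [if_pos hi, if_pos]
        exact Finset.mem_map.2 ⟨i, hi, rfl⟩
      · rw [if_neg hi, if_neg]
        intro h
        obtain ⟨i', hi', h'⟩ := Finset.mem_map.1 h
        have : i' = i := (Fin.castAddEmb m).injective h'
        exact hi (this ▸ hi')
    · rw [Fin.append_right, Fin.append_right, if_neg]
      · have := hx (Fin.natAdd n j)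
        rw [Fin.append_right] at this
        rw [Finset.mem_singleton.1 this]
      · intro h
        obtain ⟨i', hi', h'⟩ := Finset.mem_map.1 h
        have := congrArg Fin.val h'
        simp at this
        omega
  rw [h1, prodSet_append_one]
  apply le_maxSize
  intro i
  have := hx (Fin.castAdd m i)
  rwa [Fin.append_left] at this

theorem maxSize_append_singleton_le {n m : ℕ} (T : Fin n → Finset G) (j : Fin m) :
    maxSize (Fin.append T (fun _ : Fin m => {1})) {Fin.natAdd n j} ≤ 1 := by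
  apply maxSize_le
  intro x hx
  have h1 : (fun i => if i ∈ ({Fin.natAdd n j} : Finset (Fin (n + m))) then
        Fin.append T (fun _ : Fin m => {1}) i else {x i}) = fun i => {x i} := by
    funext i
    by_cases hi : i ∈ ({Fin.natAdd n j} : Finset (Fin (n + m)))
    · rw [if_pos hi]
      rw [Finset.mem_singleton] at hi
      subst hi
      have := hx (Fin.natAdd n j)
      rw [Fin.append_right] at this ⊢
      rw [Finset.mem_singleton.1 this]
    · rw [if_neg hi]
  rw [h1, prodSet_singletons]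

theorem prodSet_three (S : Fin 3 → Finset G) :
    prodSet S = pr (pr (S 0) (S 1)) (S 2) := by
  ext g
  rw [mem_prodSet]
  simp only [mem_pr]
  constructor
  · rintro ⟨s, hs, rfl⟩
    refine ⟨s 0 * s 1, ⟨s 0, hs 0, s 1, hs 1, rfl⟩, s 2, hs 2, ?_⟩
    simp [List.ofFn_succ, mul_assoc]
  · rintro ⟨_, ⟨a, ha, b, hb, rfl⟩, c, hc, rfl⟩
    refine ⟨![a, b, c], ?_, ?_⟩
    · intro i
      fin_cases i <;> assumption
    · simp [List.ofFn_succ, mul_assoc]

/-- The three-factor inequality (Gyarmati, Matolcsi, Ruzsa). -/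
theorem three_ineq (X Y Z : Finset G) (M : ℕ) (hM : ∀ y ∈ Y, (pr (pr X {y}) Z).card ≤ M) :
    (pr (pr X Y) Z).card ^ 2 ≤ (pr X Y).card * (pr Y Z).card * M := by
  classical
  let F : List G := (X ∪ Y).toList
  have hFX : ∀ x ∈ X, x ∈ F := fun x hx => by simp [F, hx]
  have hFY : ∀ y ∈ Y, y ∈ F := fun y hy => by simp [F, hy]
  let e : G → ℕ := fun g => F.idxOf g
  have he : ∀ x ∈ F, ∀ y, e x = e y → x = y := fun x hx y h => (List.idxOf_inj hx).1 h
  let T : Finset (G × G × G) := X ×ˢ (Y ×ˢ Z)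
  let pm : G × G × G → G := fun t => t.1 * t.2.1 * t.2.2
  let key : G × G × G → ℕ ×ₗ ℕ := fun t => toLex (e t.1, e t.2.1)
  let D : Finset (G × G × G) := T.filter fun t => ∀ t' ∈ T, pm t' = pm t → key t ≤ key t'
  have hD : ∀ t, t ∈ D ↔ ((t.1 ∈ X ∧ t.2.1 ∈ Y ∧ t.2.2 ∈ Z) ∧
      ∀ t' ∈ T, pm t' = pm t → key t ≤ key t') := by
    intro t
    simp only [D, T, mem_filter, mem_product]
  have hkey : ∀ t ∈ T, ∀ t' : G × G × G, key t = key t' → t.1 = t'.1 ∧ t.2.1 = t'.2.1 := by
    intro t ht t' h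
    have h1 : (e t.1, e t.2.1) = (e t'.1, e t'.2.1) := toLex.injective h
    simp only [T, mem_product] at ht
    rw [Prod.mk.injEq] at h1
    exact ⟨he _ (hFX _ ht.1) _ h1.1, he _ (hFY _ ht.2.1) _ h1.2⟩
  have hDT : ∀ t ∈ D, t ∈ T := fun t ht => (mem_filter.1 ht).1
  have hDm : ∀ t ∈ D, ∀ t' ∈ T, pm t' = pm t → key t ≤ key t' := fun t ht => (mem_filter.1 ht).2
  -- surjectivity
  have hsurj : pr (pr X Y) Z ⊆ D.image pm := by
    intro g hg
    rw [mem_pr] at hg
    obtain ⟨w, hw, z, hz, rfl⟩ := hg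
    rw [mem_pr] at hw
    obtain ⟨x, hx, y, hy, rfl⟩ := hw
    let U := T.filter fun t => pm t = x * y * z
    have hU : U.Nonempty := ⟨(x, y, z), by simp [U, T, pm, hx, hy, hz]⟩
    obtain ⟨t, ht, hmin⟩ := Finset.exists_min_image U key hU
    have ht' := mem_filter.1 ht
    refine Finset.mem_image.2 ⟨t, ?_, ht'.2⟩
    refine mem_filter.2 ⟨ht'.1, fun t' h1 h2 => hmin t' (mem_filter.2 ⟨h1, ?_⟩)⟩
    rw [h2]; exact ht'.2
  -- injectivity facts
  have hinj : ∀ t ∈ D, ∀ t' ∈ D, pm t = pm t' → t = t' := by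
    intro t ht t' ht' h
    have h1 : key t = key t' := le_antisymm (hDm t ht t' (hDT t' ht') h.symm)
      (hDm t' ht' t (hDT t ht) h)
    obtain ⟨h2, h3⟩ := hkey t (hDT t ht) t' h1
    have h4 : t.2.2 = t'.2.2 := by
      have h5 : t.1 * t.2.1 * t.2.2 = t'.1 * t'.2.1 * t'.2.2 := h
      rw [h2, h3] at h5
      exact mul_left_cancel h5
    exact Prod.ext h2 (Prod.ext h3 h4)
  have h12 : ∀ t ∈ D, ∀ t' ∈ D, t.1 * t.2.1 = t'.1 * t'.2.1 → t.1 = t'.1 ∧ t.2.1 = t'.2.1 := by
    intro t ht t' ht' h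
    have h1 := (hD t).1 ht
    have h2 := (hD t').1 ht'
    have h3 : key t ≤ key t' := by
      have := hDm t ht (t'.1, t'.2.1, t.2.2)
        (by simp only [T, mem_product]; exact ⟨h2.1.1, h2.1.2.1, h1.1.2.2⟩)
        (by simp only [pm]; rw [h])
      exact this
    have h4 : key t' ≤ key t := by
      have := hDm t' ht' (t.1, t.2.1, t'.2.2)
        (by simp only [T, mem_product]; exact ⟨h1.1.1, h1.1.2.1, h2.1.2.2⟩)
        (by simp only [pm]; rw [h])
      exact this
    exact hkey t (hDT t ht) t' (le_antisymm h3 h4)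
  have h23 : ∀ t ∈ D, ∀ t' ∈ D, t.2.1 * t.2.2 = t'.2.1 * t'.2.2 →
      t.2.1 = t'.2.1 ∧ t.2.2 = t'.2.2 := by
    intro t ht t' ht' h
    have h1 := (hD t).1 ht
    have h2 := (hD t').1 ht'
    have h3 : e t.2.1 ≤ e t'.2.1 := by
      have := hDm t ht (t.1, t'.2.1, t'.2.2)
        (by simp only [T, mem_product]; exact ⟨h1.1.1, h2.1.2.1, h2.1.2.2⟩)
        (by simp only [pm]; rw [mul_assoc, mul_assoc, h])
      simp only [key, Prod.Lex.toLex_le_toLex, lt_irrefl, false_or, true_and] at this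
      exact this
    have h4 : e t'.2.1 ≤ e t.2.1 := by
      have := hDm t' ht' (t'.1, t.2.1, t.2.2)
        (by simp only [T, mem_product]; exact ⟨h2.1.1, h1.1.2.1, h1.1.2.2⟩)
        (by simp only [pm]; rw [mul_assoc, mul_assoc, h])
      simp only [key, Prod.Lex.toLex_le_toLex, lt_irrefl, false_or, true_and] at this
      exact this
    have h5 : t.2.1 = t'.2.1 := he _ (hFY _ h1.1.2.1) _ (le_antisymm h3 h4)
    rw [h5] at h
    exact ⟨h5, mul_left_cancel h⟩
  -- counting
  let d : G → ℕ := fun y => (D.filter fun t => t.2.1 = y).card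
  let P : Finset (G × G) := D.image fun t => (t.1, t.2.1)
  let Q : Finset (G × G) := D.image fun t => (t.2.1, t.2.2)
  let p : G → ℕ := fun y => (P.filter fun t => t.2 = y).card
  let q : G → ℕ := fun y => (Q.filter fun t => t.1 = y).card
  have hcard : (pr (pr X Y) Z).card ≤ ∑ y ∈ Y, d y := by
    calc (pr (pr X Y) Z).card ≤ (D.image pm).card := Finset.card_le_card hsurj
      _ ≤ D.card := Finset.card_image_le
      _ = ∑ y ∈ Y, d y := by
        apply Finset.card_eq_sum_card_fiberwise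
        intro t ht
        exact ((hD t).1 ht).1.2.1
  have hP : ∑ y ∈ Y, p y ≤ (pr X Y).card := by
    have h1 : P.card = ∑ y ∈ Y, p y := by
      apply Finset.card_eq_sum_card_fiberwise
      intro t ht
      obtain ⟨t', ht', rfl⟩ := Finset.mem_image.1 ht
      exact ((hD t').1 ht').1.2.1
    rw [← h1]
    apply Finset.card_le_card_of_injOn (fun t => t.1 * t.2)
    · intro t ht
      obtain ⟨t', ht', rfl⟩ := Finset.mem_image.1 ht
      exact mem_pr.2 ⟨_, ((hD t').1 ht').1.1, _, ((hD t').1 ht').1.2.1, rfl⟩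
    · intro t ht s hs h
      obtain ⟨t', ht', rfl⟩ := Finset.mem_image.1 ht
      obtain ⟨s', hs', rfl⟩ := Finset.mem_image.1 hs
      have := h12 t' ht' s' hs' h
      exact Prod.ext this.1 this.2
  have hQ : ∑ y ∈ Y, q y ≤ (pr Y Z).card := by
    have h1 : Q.card = ∑ y ∈ Y, q y := by
      apply Finset.card_eq_sum_card_fiberwise
      intro t ht
      obtain ⟨t', ht', rfl⟩ := Finset.mem_image.1 ht
      exact ((hD t').1 ht').1.2.1
    rw [← h1]
    apply Finset.card_le_card_of_injOn (fun t => t.1 * t.2)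
    · intro t ht
      obtain ⟨t', ht', rfl⟩ := Finset.mem_image.1 ht
      exact mem_pr.2 ⟨_, ((hD t').1 ht').1.2.1, _, ((hD t').1 ht').1.2.2, rfl⟩
    · intro t ht s hs h
      obtain ⟨t', ht', rfl⟩ := Finset.mem_image.1 ht
      obtain ⟨s', hs', rfl⟩ := Finset.mem_image.1 hs
      have := h23 t' ht' s' hs' h
      exact Prod.ext this.1 this.2
  have hdM : ∀ y ∈ Y, d y ≤ M := by
    intro y hy
    refine le_trans ?_ (hM y hy)
    apply Finset.card_le_card_of_injOn pm
    · intro t ht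
      have ht' := mem_filter.1 ht
      have h1 := ((hD t).1 ht'.1).1
      exact mem_pr.2 ⟨t.1 * t.2.1, mem_pr.2 ⟨t.1, h1.1, t.2.1, by rw [ht'.2]; simp, rfl⟩,
        t.2.2, h1.2.2, rfl⟩
    · intro t ht s hs h
      exact hinj t (mem_filter.1 ht).1 s (mem_filter.1 hs).1 h
  have hdpq : ∀ y, d y ≤ p y * q y := by
    intro y
    simp only [d, p, q]
    rw [← Finset.card_product]
    apply Finset.card_le_card_of_injOn (fun t => ((t.1, t.2.1), (t.2.1, t.2.2)))
    · intro t ht
      have ht' := mem_filter.1 ht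
      refine Finset.mem_product.2 ⟨mem_filter.2 ⟨?_, ht'.2⟩, mem_filter.2 ⟨?_, ht'.2⟩⟩
      · exact Finset.mem_image.2 ⟨t, ht'.1, rfl⟩
      · exact Finset.mem_image.2 ⟨t, ht'.1, rfl⟩
    · intro t _ s _ h
      simp only [Prod.mk.injEq] at h
      exact Prod.ext h.1.1 (Prod.ext h.1.2 h.2.2)
  have hsq : (∑ y ∈ Y, d y) ^ 2 ≤ (∑ y ∈ Y, M * p y) * ∑ y ∈ Y, q y := by
    have := Finset.sum_sq_le_sum_mul_sum_of_sq_le_mul Y (r := fun y => ((d y : ℕ) : ℝ))
      (f := fun y => ((M * p y : ℕ) : ℝ)) (g := fun y => ((q y : ℕ) : ℝ))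
      (fun i _ => by positivity) (fun i _ => by positivity)
      (fun i hi => by
        have h1 : d i * d i ≤ M * (p i * q i) := Nat.mul_le_mul (hdM i hi) (hdpq i)
        have h2 : ((d i * d i : ℕ) : ℝ) ≤ ((M * (p i * q i) : ℕ) : ℝ) := by exact_mod_cast h1
        push_cast at h2 ⊢
        nlinarith [h2])
    exact_mod_cast this
  calc (pr (pr X Y) Z).card ^ 2 ≤ (∑ y ∈ Y, d y) ^ 2 := Nat.pow_le_pow_left hcard 2
    _ ≤ (∑ y ∈ Y, M * p y) * ∑ y ∈ Y, q y := hsq
    _ = M * (∑ y ∈ Y, p y) * ∑ y ∈ Y, q y := by rw [← Finset.mul_sum]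
    _ ≤ M * (pr X Y).card * (pr Y Z).card :=
      Nat.mul_le_mul (Nat.mul_le_mul_left _ hP) hQ
    _ = (pr X Y).card * (pr Y Z).card * M := by ring

/-- the real-number part for three factors -/
theorem real_three {s a0 a1 a2 b01 b12 b02 : ℝ} (hs : 0 < s) (h0 : 0 < a0) (h1 : 0 < a1)
    (h2 : 0 < a2) (h01 : 0 < b01) (h12 : 0 < b12) (h02 : 0 < b02)
    (e1 : s ≤ a0 * a1 * a2) (e2 : s ≤ b01 * a2) (e3 : s ≤ b12 * a0) (e4 : s ≤ b02 * a1)
    (e5 : s ^ 2 ≤ b01 * b12 * b02) :
    ∃ l0 l1 l2 : ℝ, 0 < l0 ∧ 0 < l1 ∧ 0 < l2 ∧ l0 * l1 * l2 = s ∧ l0 ≤ a0 ∧ l1 ≤ a1 ∧ l2 ≤ a2 ∧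
      l0 * l1 ≤ b01 ∧ l1 * l2 ≤ b12 ∧ l0 * l2 ≤ b02 := by
  have key : ∀ l0 l1 l2 : ℝ, s / b12 ≤ l0 → s / b02 ≤ l1 → s / b01 ≤ l2 → l0 ≤ a0 → l1 ≤ a1 →
      l2 ≤ a2 → l0 * l1 * l2 = s → ∃ l0 l1 l2 : ℝ, 0 < l0 ∧ 0 < l1 ∧ 0 < l2 ∧ l0 * l1 * l2 = s ∧
      l0 ≤ a0 ∧ l1 ≤ a1 ∧ l2 ≤ a2 ∧ l0 * l1 ≤ b01 ∧ l1 * l2 ≤ b12 ∧ l0 * l2 ≤ b02 := by
    intro l0 l1 l2 g0 g1 g2 k0 k1 k2 hp
    have p0 : 0 < l0 := lt_of_lt_of_le (div_pos hs h12) g0
    have p1 : 0 < l1 := lt_of_lt_of_le (div_pos hs h02) g1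
    have p2 : 0 < l2 := lt_of_lt_of_le (div_pos hs h01) g2
    refine ⟨l0, l1, l2, p0, p1, p2, hp, k0, k1, k2, ?_, ?_, ?_⟩
    · rw [div_le_iff₀ h01] at g2
      have : l0 * l1 * l2 ≤ b01 * l2 := by rw [hp]; linarith
      exact le_of_mul_le_mul_right this p2
    · rw [div_le_iff₀ h12] at g0
      have : l1 * l2 * l0 ≤ b12 * l0 := by
        have : l1 * l2 * l0 = s := by rw [← hp]; ring
        rw [this]; linarith
      exact le_of_mul_le_mul_right this p0
    · rw [div_le_iff₀ h02] at g1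
      have : l0 * l2 * l1 ≤ b02 * l1 := by
        have : l0 * l2 * l1 = s := by rw [← hp]; ring
        rw [this]; linarith
      exact le_of_mul_le_mul_right this p1
  have q0 : 0 < s / b12 := div_pos hs h12
  have q1 : 0 < s / b02 := div_pos hs h02
  have q2 : 0 < s / b01 := div_pos hs h01
  have r0 : s / b12 ≤ a0 := by rw [div_le_iff₀ h12]; linarith
  have r1 : s / b02 ≤ a1 := by rw [div_le_iff₀ h02]; linarith
  have r2 : s / b01 ≤ a2 := by rw [div_le_iff₀ h01]; linarith
  by_cases c1 : s ≤ a0 * (s / b02) * (s / b01)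
  · have hpos : 0 < (s / b02) * (s / b01) := mul_pos q1 q2
    refine key (s / ((s / b02) * (s / b01))) (s / b02) (s / b01) ?_ le_rfl le_rfl ?_ r1 r2 ?_
    · rw [le_div_iff₀ hpos]
      have : s / b12 * (s / b02 * (s / b01)) = s * (s ^ 2 / (b01 * b12 * b02)) := by
        field_simp
      rw [this]
      have h3 : s ^ 2 / (b01 * b12 * b02) ≤ 1 := by
        rw [div_le_one (by positivity)]
        exact e5
      nlinarith
    · rw [div_le_iff₀ hpos]; linarith
    · field_simp
  · push Not at c1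
    by_cases c2 : s ≤ a0 * a1 * (s / b01)
    · have hpos : 0 < a0 * (s / b01) := mul_pos h0 q2
      refine key a0 (s / (a0 * (s / b01))) (s / b01) r0 ?_ le_rfl le_rfl ?_ r2 ?_
      · rw [le_div_iff₀ hpos]; nlinarith
      · rw [div_le_iff₀ hpos]; nlinarith
      · field_simp
    · push Not at c2
      have hpos : 0 < a0 * a1 := mul_pos h0 h1
      refine key a0 a1 (s / (a0 * a1)) r0 r1 ?_ le_rfl le_rfl ?_ ?_
      · rw [le_div_iff₀ hpos]; nlinarith
      · rw [div_le_iff₀ hpos]; nlinarith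
      · field_simp

end basic

/-! ## The base group: affine maps modulo 33 -/

/-- The affine map `t ↦ u t + a` of `ZMod 33` with `u` a unit with inverse `v`. -/
structure Aff : Type u where
  a : ZMod 33
  u : ZMod 33
  v : ZMod 33
  h : u * v = 1
deriving DecidableEq

namespace Aff

theorem ext' {p q : Aff} (h1 : p.a = q.a) (h2 : p.u = q.u) : p = q := by
  rcases p with ⟨a, u, v, h⟩
  rcases q with ⟨a', u', v', h'⟩
  simp only at h1 h2
  subst h1 h2
  have : v = v' := by
    calc v = v * (u * v') := by rw [h', mul_one]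
      _ = (u * v) * v' := by ring
      _ = v' := by rw [h, one_mul]
  subst this
  rfl

instance : Mul Aff := ⟨fun p q => ⟨p.a + p.u * q.a, p.u * q.u, q.v * p.v, by
  have h1 := p.h
  have h2 := q.h
  calc p.u * q.u * (q.v * p.v) = (p.u * p.v) * (q.u * q.v) := by ring
    _ = 1 := by rw [h1, h2, one_mul]⟩⟩
instance : One Aff := ⟨⟨0, 1, 1, by ring⟩⟩
instance : Inv Aff := ⟨fun p => ⟨-(p.v * p.a), p.v, p.u, by rw [mul_comm]; exact p.h⟩⟩

theorem mul_a (p q : Aff) : (p * q).a = p.a + p.u * q.a := rfl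
theorem mul_u (p q : Aff) : (p * q).u = p.u * q.u := rfl
theorem one_a : (1 : Aff).a = 0 := rfl
theorem one_u : (1 : Aff).u = 1 := rfl
theorem inv_a (p : Aff) : (p⁻¹).a = -(p.v * p.a) := rfl
theorem inv_u (p : Aff) : (p⁻¹).u = p.v := rfl

instance : Group Aff := Group.ofLeftAxioms
  (by intro p q r; apply ext' <;> simp only [mul_a, mul_u] <;> ring)
  (by intro p; apply ext' <;> simp only [mul_a, mul_u, one_a, one_u] <;> ring)
  (by
    intro p
    have h := p.h
    apply ext'
    · simp only [mul_a, inv_a, inv_u, one_a]; ring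
    · simp only [mul_u, inv_u, one_u]; rw [mul_comm]; exact h)

instance : Finite Aff := by
  apply Finite.of_injective (fun p : Aff => (p.a, p.u))
  intro p q h
  simp only [Prod.mk.injEq] at h
  exact ext' h.1 h.2

end Aff

/-- cyclic subgroup of order 5 -/
def H5 : Finset Aff.{u} :=
  {⟨0, 1, 1, by decide⟩, ⟨0, 4, 25, by decide⟩, ⟨0, 16, 31, by decide⟩, ⟨0, 25, 4, by decide⟩,
    ⟨0, 31, 16, by decide⟩}

/-- the second set -/
def Y2 : Finset Aff.{u} :=
  {⟨0, 1, 1, by decide⟩, ⟨0, 23, 23, by decide⟩, ⟨1, 1, 1, by decide⟩, ⟨23, 23, 23, by decide⟩}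

/-- the third set -/
def Y3 : Finset Aff.{u} :=
  {⟨0, 1, 1, by decide⟩, ⟨0, 23, 23, by decide⟩, ⟨32, 1, 1, by decide⟩, ⟨32, 23, 23, by decide⟩}

/-- the four base sets -/
def base : Fin 4 → Finset Aff.{u} := ![H5, Y2, Y3, H5]

set_option maxRecDepth 100000 in
theorem card_all : (pr (pr (pr H5.{u} Y2) Y3) H5).card = 210 := by decide +kernel

set_option maxRecDepth 100000 in
theorem card_012 : (pr (pr H5.{u} Y2) Y3).card = 50 := by decide +kernel

set_option maxRecDepth 100000 in
theorem card_123 : (pr (pr Y2.{u} Y3) H5).card = 50 := by decide +kernel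

set_option maxRecDepth 100000 in
theorem card_013 : ∀ x ∈ Y3.{u}, (pr (pr (pr H5 Y2) {x}) H5).card = 60 := by decide +kernel

set_option maxRecDepth 100000 in
theorem card_023 : ∀ x ∈ Y2.{u}, (pr (pr (pr H5 {x}) Y3) H5).card = 60 := by decide +kernel

set_option maxRecDepth 100000 in
theorem card_x123 : ∀ x ∈ H5.{u}, (pr (pr (pr {x} Y2) Y3) H5).card = 50 := by decide +kernel

set_option maxRecDepth 100000 in
theorem card_012x : ∀ x ∈ H5.{u}, (pr (pr (pr H5 Y2) Y3) {x}).card = 50 := by decide +kernel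

theorem base_card : (prodSet base.{u}).card = 210 := by
  rw [prodSet_four]
  exact card_all

theorem base_nonempty : ∀ i, (base.{u} i).Nonempty := by
  intro i
  fin_cases i
  · exact ⟨_, Finset.mem_insert_self _ _⟩
  · exact ⟨_, Finset.mem_insert_self _ _⟩
  · exact ⟨_, Finset.mem_insert_self _ _⟩
  · exact ⟨_, Finset.mem_insert_self _ _⟩

theorem base_0 : maxSize base.{u} {1, 2, 3} ≤ 50 := by
  apply maxSize_le
  intro x hx
  rw [prodSet_four]
  exact (card_x123 (x 0) (hx 0)).le

theorem base_1 : maxSize base.{u} {0, 2, 3} ≤ 60 := by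
  apply maxSize_le
  intro x hx
  rw [prodSet_four]
  exact (card_023 (x 1) (hx 1)).le

theorem base_2 : maxSize base.{u} {0, 1, 3} ≤ 60 := by
  apply maxSize_le
  intro x hx
  rw [prodSet_four]
  exact (card_013 (x 2) (hx 2)).le

theorem base_3 : maxSize base.{u} {0, 1, 2} ≤ 50 := by
  apply maxSize_le
  intro x hx
  rw [prodSet_four]
  exact (card_012x (x 3) (hx 3)).le

/-! ## Failure for four or more factors -/

/-- The box inequality with constant `C` for the family `S`. -/
def HasBox {G : Type u} [Group G] [DecidableEq G] {n : ℕ} (C : ℝ) (S : Fin n → Finset G) : Prop :=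
  ∃ lam : Fin n → ℝ, (∀ i, 0 < lam i) ∧ ∏ i, lam i = ((prodSet S).card : ℝ) ∧
    ∀ A : Finset (Fin n), ∏ i ∈ A, lam i ≤ C * (maxSize S A : ℝ)

theorem fails (m : ℕ) (C : ℝ) (hC : 1 ≤ C) : ∃ k : ℕ,
    ¬ HasBox C (powFam k (Fin.append base.{u} (fun _ : Fin m => {1}))) := by
  obtain ⟨k, hk⟩ := pow_unbounded_of_one_lt (C ^ (3 * m + 4))
    (show (1 : ℝ) < 9261 / 9000 by norm_num)
  refine ⟨k, ?_⟩
  rintro ⟨lam, hpos, hprod, hA⟩
  set S : Fin (4 + m) → Finset Aff.{u} := Fin.append base.{u} (fun _ : Fin m => {1}) with hS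
  have hC0 : 0 < C := by linarith
  -- cardinality
  rw [card_prodSet_powFam, hS, prodSet_append_one, base_card, Fin.prod_univ_add] at hprod
  -- the extra factors
  have hr : ∀ j : Fin m, lam (Fin.natAdd 4 j) ≤ C := by
    intro j
    have h1 := hA {Fin.natAdd 4 j}
    rw [Finset.prod_singleton] at h1
    have h2 : maxSize (powFam k S) {Fin.natAdd 4 j} ≤ 1 := by
      refine (maxSize_powFam_le k S _).trans ?_
      calc maxSize S {Fin.natAdd 4 j} ^ k ≤ 1 ^ k :=
            Nat.pow_le_pow_left (maxSize_append_singleton_le base j) k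
        _ = 1 := one_pow k
    have h3 : (maxSize (powFam k S) {Fin.natAdd 4 j} : ℝ) ≤ 1 := by exact_mod_cast h2
    calc lam (Fin.natAdd 4 j) ≤ C * (maxSize (powFam k S) {Fin.natAdd 4 j} : ℝ) := h1
      _ ≤ C * 1 := mul_le_mul_of_nonneg_left h3 hC0.le
      _ = C := mul_one C
  have hr' : ∏ j : Fin m, lam (Fin.natAdd 4 j) ≤ C ^ m := by
    calc ∏ j : Fin m, lam (Fin.natAdd 4 j) ≤ ∏ _j : Fin m, C :=
          Finset.prod_le_prod (fun j _ => (hpos _).le) (fun j _ => hr j)
      _ = C ^ m := by simp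
  -- the main factors
  set a : Fin 4 → ℝ := fun i => lam (Fin.castAdd m i) with ha
  have hb : ∀ (A : Finset (Fin 4)) (b : ℕ), maxSize base A ≤ b → ∏ i ∈ A, a i ≤ C * (b : ℝ) ^ k := by
    intro A b hb
    have h1 := hA (A.map (Fin.castAddEmb m))
    rw [Finset.prod_map] at h1
    have h2 : maxSize (powFam k S) (A.map (Fin.castAddEmb m)) ≤ b ^ k := by
      refine (maxSize_powFam_le k S _).trans ?_
      exact Nat.pow_le_pow_left ((maxSize_append_le base A).trans hb) k
    have h3 : (maxSize (powFam k S) (A.map (Fin.castAddEmb m)) : ℝ) ≤ (b : ℝ) ^ k := by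
      exact_mod_cast h2
    calc ∏ i ∈ A, a i ≤ C * (maxSize (powFam k S) (A.map (Fin.castAddEmb m)) : ℝ) := h1
      _ ≤ C * (b : ℝ) ^ k := mul_le_mul_of_nonneg_left h3 hC0.le
  have b0 := hb {1, 2, 3} 50 base_0
  have b1 := hb {0, 2, 3} 60 base_1
  have b2 := hb {0, 1, 3} 60 base_2
  have b3 := hb {0, 1, 2} 50 base_3
  have p0 : 0 < a 0 := hpos _
  have p1 : 0 < a 1 := hpos _
  have p2 : 0 < a 2 := hpos _
  have p3 : 0 < a 3 := hpos _
  have e0 : ∏ i ∈ ({1, 2, 3} : Finset (Fin 4)), a i = a 1 * a 2 * a 3 := by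
    rw [Finset.prod_insert (by decide), Finset.prod_insert (by decide), Finset.prod_singleton,
      mul_assoc]
  have e1 : ∏ i ∈ ({0, 2, 3} : Finset (Fin 4)), a i = a 0 * a 2 * a 3 := by
    rw [Finset.prod_insert (by decide), Finset.prod_insert (by decide), Finset.prod_singleton,
      mul_assoc]
  have e2 : ∏ i ∈ ({0, 1, 3} : Finset (Fin 4)), a i = a 0 * a 1 * a 3 := by
    rw [Finset.prod_insert (by decide), Finset.prod_insert (by decide), Finset.prod_singleton,
      mul_assoc]
  have e3 : ∏ i ∈ ({0, 1, 2} : Finset (Fin 4)), a i = a 0 * a 1 * a 2 := by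
    rw [Finset.prod_insert (by decide), Finset.prod_insert (by decide), Finset.prod_singleton,
      mul_assoc]
  rw [e0] at b0
  rw [e1] at b1
  rw [e2] at b2
  rw [e3] at b3
  push_cast at b0 b1 b2 b3 hprod
  have hfour : ∏ i : Fin 4, lam (Fin.castAdd m i) = a 0 * a 1 * a 2 * a 3 := by
    rw [Fin.prod_univ_four]
  rw [hfour] at hprod
  set q : ℝ := a 0 * a 1 * a 2 * a 3 with hq
  have hqpos : 0 < q := by positivity
  have h210 : (210 : ℝ) ^ k ≤ q * C ^ m := by
    rw [← hprod]
    exact mul_le_mul_of_nonneg_left hr' hqpos.le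
  have hq3 : q ^ 3 ≤ C ^ 4 * (9000000 : ℝ) ^ k := by
    have h1 : q ^ 3 = (a 1 * a 2 * a 3) * (a 0 * a 2 * a 3) * (a 0 * a 1 * a 3) *
        (a 0 * a 1 * a 2) := by rw [hq]; ring
    rw [h1]
    calc (a 1 * a 2 * a 3) * (a 0 * a 2 * a 3) * (a 0 * a 1 * a 3) * (a 0 * a 1 * a 2)
        ≤ (C * 50 ^ k) * (C * 60 ^ k) * (C * 60 ^ k) * (C * 50 ^ k) := by gcongr
      _ = C ^ 4 * ((50 * 60 * 60 * 50 : ℝ)) ^ k := by
        rw [mul_pow, mul_pow, mul_pow]; ring
      _ = C ^ 4 * (9000000 : ℝ) ^ k := by norm_num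
  have hfin : (9261000 : ℝ) ^ k ≤ C ^ (3 * m + 4) * (9000000 : ℝ) ^ k := by
    calc (9261000 : ℝ) ^ k = ((210 : ℝ) ^ k) ^ 3 := by
          rw [← pow_mul, mul_comm k 3, pow_mul]; norm_num
      _ ≤ (q * C ^ m) ^ 3 := by gcongr
      _ = q ^ 3 * C ^ (3 * m) := by rw [mul_pow, ← pow_mul, mul_comm m 3]
      _ ≤ (C ^ 4 * (9000000 : ℝ) ^ k) * C ^ (3 * m) := by gcongr
      _ = C ^ (3 * m + 4) * (9000000 : ℝ) ^ k := by rw [pow_add]; ring
  have hlt : C ^ (3 * m + 4) * (9000000 : ℝ) ^ k < (9261000 : ℝ) ^ k := by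
    calc C ^ (3 * m + 4) * (9000000 : ℝ) ^ k < (9261 / 9000) ^ k * (9000000 : ℝ) ^ k := by
          gcongr
      _ = (9261000 : ℝ) ^ k := by rw [← mul_pow]; norm_num
  linarith

/-! ## The statement for at most three factors -/

section positive

variable {G : Type u} [Group G] [DecidableEq G]

theorem pr_singleton_right (A : Finset G) (x : G) : (pr A {x}).card = A.card := by
  have : pr A {x} = A.image (fun a => a * x) := by
    ext g
    simp only [mem_pr, Finset.mem_singleton, Finset.mem_image, exists_eq_left]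
  rw [this, Finset.card_image_of_injective _ (mul_left_injective x)]

theorem pr_singleton_left (A : Finset G) (x : G) : (pr {x} A).card = A.card := by
  have : pr {x} A = A.image (fun a => x * a) := by
    ext g
    simp only [mem_pr, Finset.mem_singleton, Finset.mem_image, exists_eq_left]
  rw [this, Finset.card_image_of_injective _ (mul_right_injective x)]

theorem pr_assoc (A B D : Finset G) : pr (pr A B) D = pr A (pr B D) := by
  ext g
  simp only [mem_pr]
  constructor
  · rintro ⟨_, ⟨a, ha, b, hb, rfl⟩, d, hd, rfl⟩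
    exact ⟨a, ha, b * d, ⟨b, hb, d, hd, rfl⟩, (mul_assoc _ _ _).symm⟩
  · rintro ⟨a, ha, _, ⟨b, hb, d, hd, rfl⟩, rfl⟩
    exact ⟨a * b, ⟨a, ha, b, hb, rfl⟩, d, hd, mul_assoc _ _ _⟩

theorem pr_card_le (A B : Finset G) : (pr A B).card ≤ A.card * B.card := by
  unfold pr
  refine Finset.card_image_le.trans ?_
  rw [Finset.card_product]

theorem pr_pos {A B : Finset G} (hA : A.Nonempty) (hB : B.Nonempty) : 0 < (pr A B).card := by
  obtain ⟨a, ha⟩ := hA
  obtain ⟨b, hb⟩ := hB
  exact Finset.card_pos.2 ⟨a * b, mem_pr.2 ⟨a, ha, b, hb, rfl⟩⟩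

theorem box_three (S : Fin 3 → Finset G) (hS : ∀ i, (S i).Nonempty) : HasBox 1 S := by
  choose x hx using hS
  -- the middle maximum
  obtain ⟨y, hy, hmax⟩ := Finset.exists_max_image (S 1)
    (fun y => (pr (pr (S 0) {y}) (S 2)).card) ⟨x 1, hx 1⟩
  set M := (pr (pr (S 0) {y}) (S 2)).card with hM
  have n0 : (S 0).Nonempty := ⟨_, hx 0⟩
  have n1 : (S 1).Nonempty := ⟨_, hx 1⟩
  have n2 : (S 2).Nonempty := ⟨_, hx 2⟩
  have c0 := Finset.card_pos.2 n0
  have c1 := Finset.card_pos.2 n1
  have c2 := Finset.card_pos.2 n2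
  have n01 : (pr (S 0) (S 1)).Nonempty := Finset.card_pos.1 (pr_pos n0 n1)
  have hs : 0 < (pr (pr (S 0) (S 1)) (S 2)).card := pr_pos n01 n2
  have hMpos : 0 < M := pr_pos (Finset.card_pos.1 (pr_pos n0 (Finset.singleton_nonempty y))) n2
  have i1 : (pr (pr (S 0) (S 1)) (S 2)).card ≤ (S 0).card * (S 1).card * (S 2).card :=
    (pr_card_le _ _).trans (Nat.mul_le_mul_right _ (pr_card_le _ _))
  have i2 : (pr (pr (S 0) (S 1)) (S 2)).card ≤ (pr (S 0) (S 1)).card * (S 2).card :=
    pr_card_le _ _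
  have i3 : (pr (pr (S 0) (S 1)) (S 2)).card ≤ (pr (S 1) (S 2)).card * (S 0).card := by
    rw [pr_assoc, mul_comm]
    exact pr_card_le _ _
  have i4 : (pr (pr (S 0) (S 1)) (S 2)).card ≤ M * (S 1).card := by
    have h1 : pr (pr (S 0) (S 1)) (S 2) ⊆
        (S 1).biUnion fun z => pr (pr (S 0) {z}) (S 2) := by
      intro g hg
      rw [mem_pr] at hg
      obtain ⟨w, hw, c, hc, rfl⟩ := hg
      rw [mem_pr] at hw
      obtain ⟨a, ha, b, hb, rfl⟩ := hw
      refine Finset.mem_biUnion.2 ⟨b, hb, mem_pr.2 ⟨a * b, mem_pr.2 ⟨a, ha, b, ?_, rfl⟩, c, hc,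
        rfl⟩⟩
      exact Finset.mem_singleton_self b
    calc (pr (pr (S 0) (S 1)) (S 2)).card
        ≤ ((S 1).biUnion fun z => pr (pr (S 0) {z}) (S 2)).card := Finset.card_le_card h1
      _ ≤ ∑ z ∈ S 1, (pr (pr (S 0) {z}) (S 2)).card := Finset.card_biUnion_le
      _ ≤ ∑ _z ∈ S 1, M := Finset.sum_le_sum fun z hz => hmax z hz
      _ = M * (S 1).card := by rw [Finset.sum_const, smul_eq_mul, mul_comm]
  have i5 := three_ineq (S 0) (S 1) (S 2) M hmax
  -- lower bounds for the `maxSize`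
  have m0 : (S 0).card ≤ maxSize S {0} := by
    have h := le_maxSize {0} hx
    rw [prodSet_three] at h
    have h2 : (pr (pr (S 0) {x 1}) {x 2}).card ≤ maxSize S {0} := h
    rwa [pr_singleton_right, pr_singleton_right] at h2
  have m1 : (S 1).card ≤ maxSize S {1} := by
    have h := le_maxSize {1} hx
    rw [prodSet_three] at h
    have h2 : (pr (pr {x 0} (S 1)) {x 2}).card ≤ maxSize S {1} := h
    rwa [pr_singleton_right, pr_singleton_left] at h2
  have m2 : (S 2).card ≤ maxSize S {2} := by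
    have h := le_maxSize {2} hx
    rw [prodSet_three] at h
    have h2 : (pr (pr {x 0} {x 1}) (S 2)).card ≤ maxSize S {2} := h
    rwa [pr_assoc, pr_singleton_left, pr_singleton_left] at h2
  have m01 : (pr (S 0) (S 1)).card ≤ maxSize S {0, 1} := by
    have h := le_maxSize {0, 1} hx
    rw [prodSet_three] at h
    have h2 : (pr (pr (S 0) (S 1)) {x 2}).card ≤ maxSize S {0, 1} := h
    rwa [pr_singleton_right] at h2
  have m12 : (pr (S 1) (S 2)).card ≤ maxSize S {1, 2} := by
    have h := le_maxSize {1, 2} hx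
    rw [prodSet_three] at h
    have h2 : (pr (pr {x 0} (S 1)) (S 2)).card ≤ maxSize S {1, 2} := h
    rwa [pr_assoc, pr_singleton_left] at h2
  have m02 : M ≤ maxSize S {0, 2} := by
    have hx' : ∀ i, Function.update x 1 y i ∈ S i := by
      intro i
      fin_cases i
      · exact hx 0
      · exact hy
      · exact hx 2
    have h := le_maxSize {0, 2} hx'
    rw [prodSet_three] at h
    exact h
  have m012 : (pr (pr (S 0) (S 1)) (S 2)).card ≤ maxSize S Finset.univ := by
    have h := le_maxSize Finset.univ hx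
    rw [prodSet_three] at h
    exact h
  have mE : 1 ≤ maxSize S ∅ := by
    have h := le_maxSize ∅ hx
    have h2 : (prodSet fun i => ({x i} : Finset G)).card ≤ maxSize S ∅ := h
    rwa [prodSet_singletons] at h2
  obtain ⟨l0, l1, l2, g0, g1, g2, hp, k0, k1, k2, k01, k12, k02⟩ := real_three
    (s := ((pr (pr (S 0) (S 1)) (S 2)).card : ℝ)) (a0 := ((S 0).card : ℝ))
    (a1 := ((S 1).card : ℝ)) (a2 := ((S 2).card : ℝ)) (b01 := ((pr (S 0) (S 1)).card : ℝ))
    (b12 := ((pr (S 1) (S 2)).card : ℝ)) (b02 := (M : ℝ))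
    (by exact_mod_cast hs) (by exact_mod_cast c0) (by exact_mod_cast c1) (by exact_mod_cast c2)
    (by exact_mod_cast pr_pos n0 n1) (by exact_mod_cast pr_pos n1 n2) (by exact_mod_cast hMpos)
    (by exact_mod_cast i1) (by exact_mod_cast i2) (by exact_mod_cast i3) (by exact_mod_cast i4)
    (by exact_mod_cast i5)
  refine ⟨![l0, l1, l2], ?_, ?_, ?_⟩
  · intro i
    fin_cases i
    · exact g0
    · exact g1
    · exact g2
  · rw [Fin.prod_univ_three, prodSet_three]
    exact hp
  · intro A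
    rw [one_mul]
    have hcases : ∀ A : Finset (Fin 3), A = ∅ ∨ A = {0} ∨ A = {1} ∨ A = {2} ∨ A = {0, 1} ∨
        A = {1, 2} ∨ A = {0, 2} ∨ A = Finset.univ := by decide
    have cast : ∀ {r : ℝ} {u v : ℕ}, r ≤ (u : ℝ) → u ≤ v → r ≤ (v : ℝ) := by
      intro r u v h1 h2
      exact h1.trans (by exact_mod_cast h2)
    rcases hcases A with h | h | h | h | h | h | h | h
    · subst h
      rw [Finset.prod_empty]
      exact_mod_cast mE
    · subst h
      rw [Finset.prod_singleton]
      exact cast k0 m0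
    · subst h
      rw [Finset.prod_singleton]
      exact cast k1 m1
    · subst h
      rw [Finset.prod_singleton]
      exact cast k2 m2
    · subst h
      rw [Finset.prod_insert (by decide), Finset.prod_singleton]
      exact cast k01 m01
    · subst h
      rw [Finset.prod_insert (by decide), Finset.prod_singleton]
      exact cast k12 m12
    · subst h
      rw [Finset.prod_insert (by decide), Finset.prod_singleton]
      exact cast k02 m02
    · subst h
      rw [Fin.prod_univ_three]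
      exact cast (le_of_eq hp) m012

theorem card_le_maxSize_univ {n : ℕ} (S : Fin n → Finset G) :
    maxSize S Finset.univ ≤ (prodSet S).card := by
  apply maxSize_le
  intro x _
  have : (fun i => if i ∈ (Finset.univ : Finset (Fin n)) then S i else {x i}) = S := by
    funext i
    simp
  rw [this]

/-- Sanity check: `N_[n] = |S|`. -/
theorem maxSize_univ {n : ℕ} (S : Fin n → Finset G) (hS : ∀ i, (S i).Nonempty) :
    maxSize S Finset.univ = (prodSet S).card := by
  apply le_antisymm (card_le_maxSize_univ S)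
  choose x hx using hS
  have h := le_maxSize Finset.univ hx
  have : (fun i => if i ∈ (Finset.univ : Finset (Fin n)) then S i else {x i}) = S := by
    funext i
    simp
  rwa [this] at h

/-- Sanity check: `N_∅ = 1`. -/
theorem maxSize_empty {n : ℕ} (S : Fin n → Finset G) (hS : ∀ i, (S i).Nonempty) :
    maxSize S ∅ = 1 := by
  choose x hx using hS
  apply le_antisymm
  · apply maxSize_le
    intro y _
    exact (prodSet_singletons y).le
  · have h := le_maxSize ∅ hx
    have h2 : (prodSet fun i => ({x i} : Finset G)).card ≤ maxSize S ∅ := h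
    rwa [prodSet_singletons] at h2

/-- going down by one factor -/
theorem box_down {n : ℕ} (h : ∀ S : Fin (n + 1) → Finset G, (∀ i, (S i).Nonempty) → HasBox 1 S)
    (S : Fin n → Finset G) (hS : ∀ i, (S i).Nonempty) : HasBox 1 S := by
  have hS' : ∀ i, (Fin.append S (fun _ : Fin 1 => {1}) i).Nonempty := by
    intro i
    refine Fin.addCases (fun i => ?_) (fun j => ?_) i
    · rw [Fin.append_left]; exact hS i
    · rw [Fin.append_right]; exact Finset.singleton_nonempty _
  obtain ⟨lam, hpos, hprod, hA⟩ := h (Fin.append S (fun _ : Fin 1 => {1})) hS'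
  rw [prodSet_append_one, Fin.prod_univ_add] at hprod
  simp only [Finset.univ_unique, Finset.prod_singleton] at hprod
  set r := lam (Fin.natAdd n (default : Fin 1)) with hr
  set q := ∏ i : Fin n, lam (Fin.castAdd 1 i) with hq
  have hqpos : 0 < q := Finset.prod_pos fun i _ => hpos _
  have hAle : ∀ A : Finset (Fin n), ∏ i ∈ A, lam (Fin.castAdd 1 i) ≤ (maxSize S A : ℝ) := by
    intro A
    have h1 := hA (A.map (Fin.castAddEmb 1))
    rw [Finset.prod_map, one_mul] at h1
    have h2 : (maxSize (Fin.append S (fun _ : Fin 1 => {1})) (A.map (Fin.castAddEmb 1)) : ℝ) ≤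
        (maxSize S A : ℝ) := by exact_mod_cast maxSize_append_le (m := 1) S A
    exact h1.trans h2
  have hq1 : q ≤ ((prodSet S).card : ℝ) := by
    refine (hAle Finset.univ).trans ?_
    exact_mod_cast card_le_maxSize_univ S
  have hr1 : r ≤ 1 := by
    have h1 := hA {Fin.natAdd n (default : Fin 1)}
    rw [Finset.prod_singleton, one_mul] at h1
    refine h1.trans ?_
    exact_mod_cast maxSize_append_singleton_le (m := 1) S (default : Fin 1)
  have hr2 : 1 ≤ r := by
    by_contra hlt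
    push Not at hlt
    have : q * r < q * 1 := mul_lt_mul_of_pos_left hlt hqpos
    rw [hprod, mul_one] at this
    linarith
  have hr3 : r = 1 := le_antisymm hr1 hr2
  rw [hr3, mul_one] at hprod
  refine ⟨fun i => lam (Fin.castAdd 1 i), fun i => hpos _, hprod, fun A => ?_⟩
  rw [one_mul]
  exact hAle A

theorem box_le_three {n : ℕ} (hn : n ≤ 3) (S : Fin n → Finset G) (hS : ∀ i, (S i).Nonempty) :
    HasBox 1 S := by
  have h3 : ∀ S : Fin 3 → Finset G, (∀ i, (S i).Nonempty) → HasBox 1 S := box_three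
  have h2 : ∀ S : Fin 2 → Finset G, (∀ i, (S i).Nonempty) → HasBox 1 S := box_down h3
  have h1 : ∀ S : Fin 1 → Finset G, (∀ i, (S i).Nonempty) → HasBox 1 S := box_down h2
  have h0 : ∀ S : Fin 0 → Finset G, (∀ i, (S i).Nonempty) → HasBox 1 S := box_down h1
  interval_cases n
  · exact h0 S hS
  · exact h1 S hS
  · exact h2 S hS
  · exact h3 S hS

end positive

/-- **Main theorem.** For every constant `C ≥ 1` and every `n`, the box-theorem analogue with
constant `C` for `n` factors holds in all groups if and only if `n ≤ 3`. With `C = 1` the left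
side is the statement asked for; so it holds for `n ≤ 3` and fails for every `n ≥ 4`, and for
`n ≥ 4` no constant factor `C` can repair it. -/
theorem result (n : ℕ) (C : ℝ) (hC : 1 ≤ C) :
    (∀ (G : Type u) [Group G] [DecidableEq G] (S : Fin n → Finset G), (∀ i, (S i).Nonempty) →
      ∃ lam : Fin n → ℝ, (∀ i, 0 < lam i) ∧ ∏ i, lam i = ((prodSet S).card : ℝ) ∧
        ∀ A : Finset (Fin n), ∏ i ∈ A, lam i ≤ C * (maxSize S A : ℝ)) ↔ n ≤ 3 := by
  constructor
  · intro h
    by_contra hn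
    push Not at hn
    obtain ⟨m, rfl⟩ := Nat.exists_eq_add_of_le (show 4 ≤ n from hn)
    obtain ⟨k, hk⟩ := fails.{u} m C hC
    apply hk
    refine h (Fin k → Aff.{u}) _ ?_
    intro i
    rw [powFam, Fintype.piFinset_nonempty]
    intro _
    refine Fin.addCases (fun i => ?_) (fun j => ?_) i
    · rw [Fin.append_left]; exact base_nonempty i
    · rw [Fin.append_right]; exact Finset.singleton_nonempty _
  · intro hn G _ _ S hS
    obtain ⟨lam, h1, h2, h3⟩ := box_le_three hn S hS
    refine ⟨lam, h1, h2, fun A => (h3 A).trans ?_⟩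
    exact mul_le_mul_of_nonneg_right hC (Nat.cast_nonneg _)

end Pool.Agent.Results.MP_c59173_co.BoxFails
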